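import Mathlib

/-!
# Comparing degrees in `ℂ[X]` by injections between root sets
-/

set_option autoImplicit false
open Polynomial

namespace Pool.Agent.Q30.Deg

noncomputable section

/-- constants: zero or a unit -/
def Cst (c : ℂ[X]) : Prop := c = 0 ∨ ∃ d, c * d = 1

/-- irreducible elements -/
def Lin (s : ℂ[X]) : Prop := ¬ Cst s ∧ ∀ a b, s = a * b → Cst a ∨ Cst b

/-- the value of `f` at the zero of `s - a` is `b` -/
def Ev (s f a b : ℂ[X]) : Prop := ∃ q, f + -b = (s + -a) * q

/-- comparison of degrees -/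
def LE (s f g : ℂ[X]) : Prop :=
  ∀ c, Cst c → ∃ c', Cst c' ∧ ∃ F,
    (∀ a, Cst a → Ev s f a c → ∃ b, Cst b ∧ Ev s F a b ∧ Ev s g b c') ∧
    (∀ a a' b, Cst a → Cst a' → Cst b → Ev s f a c → Ev s f a' c → Ev s F a b → Ev s F a' b → a = a')

/-- the relation equal degree -/
def Rel (f g : ℂ[X]) : Prop :=
  (f = 0 ∧ g = 0) ∨ (f ≠ 0 ∧ g ≠ 0 ∧ Cst f ∧ Cst g) ∨
    (¬ Cst f ∧ ¬ Cst g ∧ ∃ s, Lin s ∧ LE s f g ∧ LE s g f)

lemma cst_iff (c : ℂ[X]) : Cst c ↔ ∃ z : ℂ, c = C z := by
  unfold Cst
  constructor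
  · rintro (h | ⟨d, hd⟩)
    · exact ⟨0, by simpa using h⟩
    · have hu : IsUnit c := IsUnit.of_mul_eq_one d hd
      obtain ⟨r, _, hr⟩ := Polynomial.isUnit_iff.1 hu
      exact ⟨r, hr.symm⟩
  · rintro ⟨z, rfl⟩
    by_cases hz : z = 0
    · left
      simp [hz]
    · right
      refine ⟨C z⁻¹, ?_⟩
      rw [← C_mul, mul_inv_cancel₀ hz, C_1]

lemma cst_iff_natDegree (c : ℂ[X]) : Cst c ↔ c.natDegree = 0 := by
  rw [cst_iff, natDegree_eq_zero]
  constructor
  · rintro ⟨z, hz⟩
    exact ⟨z, hz.symm⟩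
  · rintro ⟨z, hz⟩
    exact ⟨z, hz.symm⟩

lemma lin_iff (s : ℂ[X]) : Lin s ↔ s.natDegree = 1 := by
  unfold Lin
  constructor
  · rintro ⟨h1, h2⟩
    have h3 : Irreducible s := by
      refine ⟨fun hu => h1 ?_, fun a b hab => ?_⟩
      · rw [cst_iff_natDegree]
        exact natDegree_eq_zero_of_isUnit hu
      · have hs0 : s ≠ 0 := by
          rintro rfl
          exact h1 (Or.inl rfl)
        rcases h2 a b hab with h | h
        · rcases h with h | ⟨d, hd⟩
          · rw [h, zero_mul] at hab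
            exact absurd hab hs0
          · exact Or.inl (IsUnit.of_mul_eq_one d hd)
        · rcases h with h | ⟨d, hd⟩
          · rw [h, mul_zero] at hab
            exact absurd hab hs0
          · exact Or.inr (IsUnit.of_mul_eq_one d hd)
    exact natDegree_eq_of_degree_eq_some (IsAlgClosed.degree_eq_one_of_irreducible ℂ h3)
  · intro h
    refine ⟨?_, fun a b hab => ?_⟩
    · rw [cst_iff_natDegree]
      omega
    · rw [cst_iff_natDegree, cst_iff_natDegree]
      have hs0 : s ≠ 0 := by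
        rintro rfl
        simp at h
      have ha : a ≠ 0 := by
        rintro rfl
        simp [hab] at hs0
      have hb : b ≠ 0 := by
        rintro rfl
        simp [hab] at hs0
      have := natDegree_mul ha hb
      rw [← hab, h] at this
      omega

/-- evaluation -/
lemma ev_iff {s : ℂ[X]} (hs : s.natDegree = 1) (f : ℂ[X]) (x z : ℂ) :
    Ev s f (C (s.eval x)) (C z) ↔ f.eval x = z := by
  obtain ⟨α, hα, β, hαβ⟩ : ∃ α : ℂ, α ≠ 0 ∧ ∃ β : ℂ, s = C α * X + C β := by
    obtain ⟨α, hα, β, h⟩ := natDegree_eq_one.1 hs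
    exact ⟨α, hα, β, h.symm⟩
  have h1 : s + -C (s.eval x) = C α * (X - C x) := by
    rw [hαβ]
    simp
    ring
  unfold Ev
  rw [h1]
  constructor
  · rintro ⟨q, hq⟩
    have := congrArg (Polynomial.eval x) hq
    simp at this
    linear_combination this
  · intro h
    have h2 : (X - C x) ∣ f - C z := by
      rw [dvd_iff_isRoot]
      simp [h]
    obtain ⟨q, hq⟩ := h2
    refine ⟨C α⁻¹ * q, ?_⟩
    rw [← sub_eq_add_neg, hq]
    have : C α * C α⁻¹ = (1 : ℂ[X]) := by rw [← C_mul, mul_inv_cancel₀ hα, C_1]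
    linear_combination -(X - C x) * q * this

lemma surj {s : ℂ[X]} (hs : s.natDegree = 1) (z : ℂ) : ∃ x, s.eval x = z := by
  obtain ⟨α, hα, β, h⟩ := natDegree_eq_one.1 hs
  refine ⟨(z - β) / α, ?_⟩
  rw [← h]
  simp
  field_simp
  ring

lemma inj {s : ℂ[X]} (hs : s.natDegree = 1) {x y : ℂ} (h : s.eval x = s.eval y) : x = y := by
  obtain ⟨α, hα, β, h1⟩ := natDegree_eq_one.1 hs
  rw [← h1] at h
  simp at h
  exact h.resolve_right hα

/-- a generic value is taken with simple multiplicity -/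
lemma generic {f : ℂ[X]} (hf : f.natDegree ≠ 0) :
    ∃ z : ℂ, (f - C z).roots.toFinset.card = f.natDegree := by
  have hd : derivative f ≠ 0 := by
    intro h
    exact hf (derivative_eq_zero.1 h)
  obtain ⟨z, hz⟩ := Set.Infinite.exists_notMem_finset (Set.infinite_univ (α := ℂ))
    ((derivative f).roots.toFinset.image fun x => f.eval x)
  refine ⟨z, ?_⟩
  have hz := hz.2
  have h0 : f - C z ≠ 0 := by
    intro h
    apply hf
    rw [sub_eq_zero.1 h, natDegree_C]
  have hnodup : (f - C z).roots.Nodup := by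
    rw [Multiset.nodup_iff_count_le_one]
    intro x
    rw [count_roots]
    by_contra hcon
    push Not at hcon
    rw [one_lt_rootMultiplicity_iff_isRoot h0] at hcon
    obtain ⟨h1, h2⟩ := hcon
    apply hz
    rw [Finset.mem_image]
    refine ⟨x, ?_, ?_⟩
    · rw [Multiset.mem_toFinset, mem_roots hd]
      simpa using h2
    · have : (f - C z).eval x = 0 := h1
      simp at this
      linear_combination this
  rw [Multiset.toFinset_card_of_nodup hnodup]
  have h3 := IsAlgClosed.card_roots_eq_natDegree (p := f - C z)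
  rw [natDegree_sub_C] at h3
  exact h3

lemma card_le (f : ℂ[X]) (z : ℂ) : (f - C z).roots.toFinset.card ≤ f.natDegree := by
  refine (Multiset.toFinset_card_le _).trans ?_
  refine (card_roots' _).trans ?_
  rw [natDegree_sub_C]

lemma mem_rt {f : ℂ[X]} (hf : f.natDegree ≠ 0) (z x : ℂ) :
    x ∈ (f - C z).roots.toFinset ↔ f.eval x = z := by
  have h0 : f - C z ≠ 0 := by
    intro h
    apply hf
    rw [sub_eq_zero.1 h, natDegree_C]
  rw [Multiset.mem_toFinset, mem_roots h0, IsRoot.def]
  simp [sub_eq_zero]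

lemma LE_iff {s f g : ℂ[X]} (hs : s.natDegree = 1) (hf : f.natDegree ≠ 0) (hg : g.natDegree ≠ 0) :
    LE s f g ↔ f.natDegree ≤ g.natDegree := by
  constructor
  · intro h
    obtain ⟨z, hz⟩ := generic hf
    obtain ⟨c', hc', F, h1, h2⟩ := h (C z) ((cst_iff _).2 ⟨z, rfl⟩)
    obtain ⟨z', rfl⟩ := (cst_iff _).1 hc'
    rw [← hz]
    refine le_trans ?_ (card_le g z')
    -- `F` induces an injection
    have h3 : ∀ x, f.eval x = z → ∃ y, s.eval y = F.eval x ∧ g.eval y = z' := by
      intro x hx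
      obtain ⟨b, hb, hb1, hb2⟩ := h1 (C (s.eval x)) ((cst_iff _).2 ⟨_, rfl⟩) ((ev_iff hs f x z).2 hx)
      obtain ⟨w, rfl⟩ := (cst_iff _).1 hb
      obtain ⟨y, hy⟩ := surj hs w
      rw [ev_iff hs] at hb1
      rw [← hy, ev_iff hs] at hb2
      exact ⟨y, by rw [hy, hb1], hb2⟩
    choose! ι hι using h3
    apply Finset.card_le_card_of_injOn ι
    · intro x hx
      rw [Finset.mem_coe, mem_rt hf] at hx
      rw [Finset.mem_coe, mem_rt hg]
      exact (hι x hx).2
    · intro x hx y hy hxy
      rw [Finset.mem_coe, mem_rt hf] at hx hy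
      have e1 := (hι x hx).1
      have e2 := (hι y hy).1
      have e3 := h2 (C (s.eval x)) (C (s.eval y)) (C (F.eval x)) ((cst_iff _).2 ⟨_, rfl⟩)
        ((cst_iff _).2 ⟨_, rfl⟩) ((cst_iff _).2 ⟨_, rfl⟩) ((ev_iff hs f x z).2 hx)
        ((ev_iff hs f y z).2 hy) ((ev_iff hs F x _).2 rfl)
        ((ev_iff hs F y _).2 (by rw [← e1, ← e2, hxy]))
      exact inj hs (C_injective e3)
  · intro h c hc
    obtain ⟨z, rfl⟩ := (cst_iff _).1 hc
    obtain ⟨z', hz'⟩ := generic hg
    refine ⟨C z', (cst_iff _).2 ⟨_, rfl⟩, ?_⟩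
    have hcard : (f - C z).roots.toFinset.card ≤ (g - C z').roots.toFinset.card := by
      rw [hz']
      exact (card_le f z).trans h
    obtain ⟨e⟩ := Function.Embedding.nonempty_of_card_le
      (α := (f - C z).roots.toFinset) (β := (g - C z').roots.toFinset) (by simpa using hcard)
    set ι : ℂ → ℂ := fun x => if hx : x ∈ (f - C z).roots.toFinset then (e ⟨x, hx⟩ : ℂ) else 0 with hι
    refine ⟨Lagrange.interpolate (f - C z).roots.toFinset id (fun x => s.eval (ι x)), ?_, ?_⟩
    · intro a ha haf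
      obtain ⟨w, rfl⟩ := (cst_iff _).1 ha
      obtain ⟨x, rfl⟩ := surj hs w
      rw [ev_iff hs] at haf
      have hx : x ∈ (f - C z).roots.toFinset := (mem_rt hf z x).2 haf
      refine ⟨C (s.eval (ι x)), (cst_iff _).2 ⟨_, rfl⟩, ?_, ?_⟩
      · rw [ev_iff hs]
        exact Lagrange.eval_interpolate_at_node _ Function.injective_id.injOn hx
      · rw [ev_iff hs, ← mem_rt hg]
        simp only [hι, dif_pos hx]
        exact (e ⟨x, hx⟩).2
    · intro a a' b ha ha' hb h1 h2 h3 h4
      obtain ⟨w, rfl⟩ := (cst_iff _).1 ha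
      obtain ⟨x, rfl⟩ := surj hs w
      obtain ⟨w', rfl⟩ := (cst_iff _).1 ha'
      obtain ⟨x', rfl⟩ := surj hs w'
      obtain ⟨w'', rfl⟩ := (cst_iff _).1 hb
      rw [ev_iff hs] at h1 h2 h3 h4
      have hx : x ∈ (f - C z).roots.toFinset := (mem_rt hf z x).2 h1
      have hx' : x' ∈ (f - C z).roots.toFinset := (mem_rt hf z x').2 h2
      have e1 := Lagrange.eval_interpolate_at_node (v := id) (s := (f - C z).roots.toFinset)
        (fun x => s.eval (ι x)) Function.injective_id.injOn hx
      have e2 := Lagrange.eval_interpolate_at_node (v := id) (s := (f - C z).roots.toFinset)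
        (fun x => s.eval (ι x)) Function.injective_id.injOn hx'
      simp only [id] at e1 e2
      rw [h3] at e1
      rw [h4, e1] at e2
      have e3 := inj hs e2
      simp only [hι, dif_pos hx, dif_pos hx'] at e3
      have e4 := e.injective (Subtype.ext e3)
      have e5 : x = x' := congrArg Subtype.val e4
      rw [e5]

lemma rel_iff (f g : ℂ[X]) : Rel f g ↔ f.degree = g.degree := by
  unfold Rel
  constructor
  · rintro (⟨h1, h2⟩ | ⟨h1, h2, h3, h4⟩ | ⟨h1, h2, s, hs, h3, h4⟩)
    · rw [h1, h2]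
    · rw [cst_iff_natDegree] at h3 h4
      rw [degree_eq_natDegree h1, degree_eq_natDegree h2, h3, h4]
    · rw [cst_iff_natDegree] at h1 h2
      rw [lin_iff] at hs
      rw [LE_iff hs h1 h2] at h3
      rw [LE_iff hs h2 h1] at h4
      have hf : f ≠ 0 := by
        rintro rfl
        simp at h1
      have hg : g ≠ 0 := by
        rintro rfl
        simp at h2
      rw [degree_eq_natDegree hf, degree_eq_natDegree hg, le_antisymm h3 h4]
  · intro h
    by_cases hf : f = 0
    · left
      refine ⟨hf, ?_⟩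
      rw [hf, degree_zero] at h
      exact degree_eq_bot.1 h.symm
    · have hg : g ≠ 0 := by
        rintro rfl
        rw [degree_zero] at h
        exact hf (degree_eq_bot.1 h)
      right
      have hn : f.natDegree = g.natDegree := natDegree_eq_of_degree_eq h
      by_cases hc : f.natDegree = 0
      · left
        rw [cst_iff_natDegree, cst_iff_natDegree]
        exact ⟨hf, hg, hc, hn ▸ hc⟩
      · right
        rw [cst_iff_natDegree, cst_iff_natDegree]
        have hc' : g.natDegree ≠ 0 := hn ▸ hc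
        refine ⟨hc, hc', X, (lin_iff _).2 natDegree_X, ?_, ?_⟩
        · rw [LE_iff natDegree_X hc hc']
          exact hn.le
        · rw [LE_iff natDegree_X hc' hc]
          exact hn.ge

end

end Pool.Agent.Q30.Deg
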