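import Pool.Agent.Q30.Deg.Alg

/-!
# The relation `deg f = deg g` is definable without parameters in the ring `ℂ[X]`
-/

set_option autoImplicit false
open Polynomial

namespace Pool.Agent.Q30.Deg

open FirstOrder FirstOrder.Language FirstOrder.Ring

noncomputable section

attribute [local instance] compatibleRingOfRing

/-- definability of a predicate by a formula without parameters -/
def D {α : Type} (P : (α → ℂ[X]) → Prop) : Prop :=
  ∃ φ : Language.ring.Formula α, ∀ v, φ.Realize v ↔ P v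

/-- ring terms -/
def DT {α : Type} (f : (α → ℂ[X]) → ℂ[X]) : Prop :=
  ∃ t : Language.ring.Term α, ∀ v, t.realize v = f v

section
variable {α : Type}

lemma DT.var (i : α) : DT (fun v : α → ℂ[X] => v i) := ⟨Term.var i, fun _ => rfl⟩

lemma DT.zero : DT (fun _ : α → ℂ[X] => 0) := ⟨0, fun v => by simp⟩

lemma DT.one : DT (fun _ : α → ℂ[X] => 1) := ⟨1, fun v => by simp⟩

lemma DT.add {f g : (α → ℂ[X]) → ℂ[X]} (hf : DT f) (hg : DT g) : DT (fun v => f v + g v) := by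
  obtain ⟨s, hs⟩ := hf
  obtain ⟨t, ht⟩ := hg
  exact ⟨s + t, fun v => by rw [realize_add, hs, ht]⟩

lemma DT.mul {f g : (α → ℂ[X]) → ℂ[X]} (hf : DT f) (hg : DT g) : DT (fun v => f v * g v) := by
  obtain ⟨s, hs⟩ := hf
  obtain ⟨t, ht⟩ := hg
  exact ⟨s * t, fun v => by rw [realize_mul, hs, ht]⟩

lemma DT.neg {f : (α → ℂ[X]) → ℂ[X]} (hf : DT f) : DT (fun v => -f v) := by
  obtain ⟨s, hs⟩ := hf
  exact ⟨-s, fun v => by rw [realize_neg, hs]⟩

lemma D.eq {f g : (α → ℂ[X]) → ℂ[X]} (hf : DT f) (hg : DT g) : D (fun v => f v = g v) := by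
  obtain ⟨s, hs⟩ := hf
  obtain ⟨t, ht⟩ := hg
  exact ⟨Term.equal s t, fun v => by rw [Formula.realize_equal, hs, ht]⟩

lemma D.and {P Q : (α → ℂ[X]) → Prop} (hP : D P) (hQ : D Q) : D (fun v => P v ∧ Q v) := by
  obtain ⟨s, hs⟩ := hP
  obtain ⟨t, ht⟩ := hQ
  exact ⟨s ⊓ t, fun v => by rw [Formula.realize_inf, hs, ht]⟩

lemma D.or {P Q : (α → ℂ[X]) → Prop} (hP : D P) (hQ : D Q) : D (fun v => P v ∨ Q v) := by
  obtain ⟨s, hs⟩ := hP
  obtain ⟨t, ht⟩ := hQ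
  exact ⟨s ⊔ t, fun v => by rw [Formula.realize_sup, hs, ht]⟩

lemma D.imp {P Q : (α → ℂ[X]) → Prop} (hP : D P) (hQ : D Q) : D (fun v => P v → Q v) := by
  obtain ⟨s, hs⟩ := hP
  obtain ⟨t, ht⟩ := hQ
  exact ⟨s.imp t, fun v => by rw [Formula.realize_imp, hs, ht]⟩

lemma D.not {P : (α → ℂ[X]) → Prop} (hP : D P) : D (fun v => ¬ P v) := by
  obtain ⟨s, hs⟩ := hP
  exact ⟨s.not, fun v => by rw [Formula.realize_not, hs]⟩

lemma D.ex {Q : (α → ℂ[X]) → ℂ[X] → Prop}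
    (hQ : D (fun w : α ⊕ Unit → ℂ[X] => Q (fun i => w (Sum.inl i)) (w (Sum.inr ())))) :
    D (fun v => ∃ x, Q v x) := by
  obtain ⟨s, hs⟩ := hQ
  refine ⟨s.iExs Unit, fun v => ?_⟩
  rw [Formula.realize_iExs]
  constructor
  · rintro ⟨i, hi⟩
    rw [hs] at hi
    exact ⟨i (), hi⟩
  · rintro ⟨x, hx⟩
    refine ⟨fun _ => x, ?_⟩
    rw [hs]
    exact hx

lemma D.all {Q : (α → ℂ[X]) → ℂ[X] → Prop}
    (hQ : D (fun w : α ⊕ Unit → ℂ[X] => Q (fun i => w (Sum.inl i)) (w (Sum.inr ())))) :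
    D (fun v => ∀ x, Q v x) := by
  have h1 := (D.ex (Q := fun v x => ¬ Q v x) hQ.not).not
  refine (congrArg D ?_).mp h1
  funext v
  simp

/-- substitution of terms -/
lemma D.sub {β : Type} {P : (α → ℂ[X]) → Prop} (hP : D P) (f : α → (β → ℂ[X]) → ℂ[X])
    (hf : ∀ i, DT (f i)) : D (fun v => P (fun i => f i v)) := by
  obtain ⟨s, hs⟩ := hP
  choose t ht using hf
  refine ⟨BoundedFormula.subst s t, fun v => ?_⟩
  show _ ↔ P (fun i => f i v)
  rw [← hs]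
  unfold Formula.Realize
  rw [BoundedFormula.realize_subst]
  have : (fun i => f i v) = fun a => (t a).realize v := by
    funext i
    rw [ht]
  rw [this]

lemma D.cst {f : (α → ℂ[X]) → ℂ[X]} (hf : DT f) : D (fun v => Cst (f v)) := by
  have h : D (fun w : Unit → ℂ[X] => Cst (w ())) := by
    unfold Cst
    refine D.or (D.eq (DT.var _) DT.zero) (D.ex (Q := fun w d => w () * d = 1) ?_)
    exact D.eq (DT.mul (DT.var _) (DT.var _)) DT.one
  exact h.sub (fun _ => f) (fun _ => hf)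

lemma D.lin {f : (α → ℂ[X]) → ℂ[X]} (hf : DT f) : D (fun v => Lin (f v)) := by
  have h : D (fun w : Unit → ℂ[X] => Lin (w ())) := by
    unfold Lin
    refine D.and (D.not (D.cst (DT.var _))) (D.all (Q := fun w a => ∀ b, w () = a * b → Cst a ∨ Cst b) ?_)
    refine D.all (Q := fun (w : Unit ⊕ Unit → ℂ[X]) b => w (Sum.inl ()) = w (Sum.inr ()) * b →
      Cst (w (Sum.inr ())) ∨ Cst b) ?_
    exact D.imp (D.eq (DT.var _) (DT.mul (DT.var _) (DT.var _)))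
      (D.or (D.cst (DT.var _)) (D.cst (DT.var _)))
  exact h.sub (fun _ => f) (fun _ => hf)

lemma D.ev {s f a b : (α → ℂ[X]) → ℂ[X]} (hs : DT s) (hf : DT f) (ha : DT a) (hb : DT b) :
    D (fun v => Ev (s v) (f v) (a v) (b v)) := by
  have h : D (fun w : Fin 4 → ℂ[X] => Ev (w 0) (w 1) (w 2) (w 3)) := by
    unfold Ev
    refine D.ex (Q := fun w q => w 1 + -w 3 = (w 0 + -w 2) * q) ?_
    exact D.eq (DT.add (DT.var _) (DT.neg (DT.var _)))
      (DT.mul (DT.add (DT.var _) (DT.neg (DT.var _))) (DT.var _))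
  have h2 := h.sub ![s, f, a, b] (fun i => by
    fin_cases i
    · exact hs
    · exact hf
    · exact ha
    · exact hb)
  exact h2

lemma D.le {s f g : (α → ℂ[X]) → ℂ[X]} (hs : DT s) (hf : DT f) (hg : DT g) :
    D (fun v => LE (s v) (f v) (g v)) := by
  have h : D (fun w : Fin 3 → ℂ[X] => LE (w 0) (w 1) (w 2)) := by
    unfold LE
    refine D.all (Q := fun w c => Cst c → ∃ c', Cst c' ∧ ∃ F,
      (∀ a, Cst a → Ev (w 0) (w 1) a c → ∃ b, Cst b ∧ Ev (w 0) F a b ∧ Ev (w 0) (w 2) b c') ∧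
      (∀ a a' b, Cst a → Cst a' → Cst b → Ev (w 0) (w 1) a c → Ev (w 0) (w 1) a' c →
        Ev (w 0) F a b → Ev (w 0) F a' b → a = a')) ?_
    refine D.imp (D.cst (DT.var _)) ?_
    -- variables: `inl i` old, `inr ()` is `c`
    refine D.ex (Q := fun (w : Fin 3 ⊕ Unit → ℂ[X]) c' => Cst c' ∧ ∃ F,
      (∀ a, Cst a → Ev (w (Sum.inl 0)) (w (Sum.inl 1)) a (w (Sum.inr ())) →
        ∃ b, Cst b ∧ Ev (w (Sum.inl 0)) F a b ∧ Ev (w (Sum.inl 0)) (w (Sum.inl 2)) b c') ∧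
      (∀ a a' b, Cst a → Cst a' → Cst b → Ev (w (Sum.inl 0)) (w (Sum.inl 1)) a (w (Sum.inr ())) →
        Ev (w (Sum.inl 0)) (w (Sum.inl 1)) a' (w (Sum.inr ())) →
        Ev (w (Sum.inl 0)) F a b → Ev (w (Sum.inl 0)) F a' b → a = a')) ?_
    refine D.and (D.cst (DT.var _)) ?_
    refine D.ex (Q := fun (w : (Fin 3 ⊕ Unit) ⊕ Unit → ℂ[X]) F =>
      (∀ a, Cst a → Ev (w (Sum.inl (Sum.inl 0))) (w (Sum.inl (Sum.inl 1))) a (w (Sum.inl (Sum.inr ()))) →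
        ∃ b, Cst b ∧ Ev (w (Sum.inl (Sum.inl 0))) F a b ∧
          Ev (w (Sum.inl (Sum.inl 0))) (w (Sum.inl (Sum.inl 2))) b (w (Sum.inr ()))) ∧
      (∀ a a' b, Cst a → Cst a' → Cst b →
        Ev (w (Sum.inl (Sum.inl 0))) (w (Sum.inl (Sum.inl 1))) a (w (Sum.inl (Sum.inr ()))) →
        Ev (w (Sum.inl (Sum.inl 0))) (w (Sum.inl (Sum.inl 1))) a' (w (Sum.inl (Sum.inr ()))) →
        Ev (w (Sum.inl (Sum.inl 0))) F a b → Ev (w (Sum.inl (Sum.inl 0))) F a' b → a = a')) ?_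
    refine D.and ?_ ?_
    · refine D.all (Q := fun (w : ((Fin 3 ⊕ Unit) ⊕ Unit) ⊕ Unit → ℂ[X]) a => Cst a →
        Ev (w (Sum.inl (Sum.inl (Sum.inl 0)))) (w (Sum.inl (Sum.inl (Sum.inl 1)))) a
          (w (Sum.inl (Sum.inl (Sum.inr ())))) →
        ∃ b, Cst b ∧ Ev (w (Sum.inl (Sum.inl (Sum.inl 0)))) (w (Sum.inr ())) a b ∧
          Ev (w (Sum.inl (Sum.inl (Sum.inl 0)))) (w (Sum.inl (Sum.inl (Sum.inl 2)))) b
            (w (Sum.inl (Sum.inr ())))) ?_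
      refine D.imp (D.cst (DT.var _)) (D.imp (D.ev (DT.var _) (DT.var _) (DT.var _) (DT.var _)) ?_)
      refine D.ex (Q := fun (w : (((Fin 3 ⊕ Unit) ⊕ Unit) ⊕ Unit) ⊕ Unit → ℂ[X]) b => Cst b ∧
        Ev (w (Sum.inl (Sum.inl (Sum.inl (Sum.inl 0))))) (w (Sum.inl (Sum.inr ()))) (w (Sum.inr ())) b ∧
          Ev (w (Sum.inl (Sum.inl (Sum.inl (Sum.inl 0))))) (w (Sum.inl (Sum.inl (Sum.inl (Sum.inl 2))))) b
            (w (Sum.inl (Sum.inl (Sum.inr ()))))) ?_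
      exact D.and (D.cst (DT.var _)) (D.and (D.ev (DT.var _) (DT.var _) (DT.var _) (DT.var _))
        (D.ev (DT.var _) (DT.var _) (DT.var _) (DT.var _)))
    · refine D.all (Q := fun (w : ((Fin 3 ⊕ Unit) ⊕ Unit) ⊕ Unit → ℂ[X]) a => ∀ a' b, Cst a → Cst a' → Cst b →
        Ev (w (Sum.inl (Sum.inl (Sum.inl 0)))) (w (Sum.inl (Sum.inl (Sum.inl 1)))) a
          (w (Sum.inl (Sum.inl (Sum.inr ())))) →
        Ev (w (Sum.inl (Sum.inl (Sum.inl 0)))) (w (Sum.inl (Sum.inl (Sum.inl 1)))) a'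
          (w (Sum.inl (Sum.inl (Sum.inr ())))) →
        Ev (w (Sum.inl (Sum.inl (Sum.inl 0)))) (w (Sum.inr ())) a b →
        Ev (w (Sum.inl (Sum.inl (Sum.inl 0)))) (w (Sum.inr ())) a' b → a = a') ?_
      refine D.all (Q := fun (w : (((Fin 3 ⊕ Unit) ⊕ Unit) ⊕ Unit) ⊕ Unit → ℂ[X]) a' =>
        ∀ b, Cst (w (Sum.inr ())) → Cst a' → Cst b →
        Ev (w (Sum.inl (Sum.inl (Sum.inl (Sum.inl 0))))) (w (Sum.inl (Sum.inl (Sum.inl (Sum.inl 1)))))
          (w (Sum.inr ())) (w (Sum.inl (Sum.inl (Sum.inl (Sum.inr ()))))) →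
        Ev (w (Sum.inl (Sum.inl (Sum.inl (Sum.inl 0))))) (w (Sum.inl (Sum.inl (Sum.inl (Sum.inl 1))))) a'
          (w (Sum.inl (Sum.inl (Sum.inl (Sum.inr ()))))) →
        Ev (w (Sum.inl (Sum.inl (Sum.inl (Sum.inl 0))))) (w (Sum.inl (Sum.inr ()))) (w (Sum.inr ())) b →
        Ev (w (Sum.inl (Sum.inl (Sum.inl (Sum.inl 0))))) (w (Sum.inl (Sum.inr ()))) a' b →
          w (Sum.inr ()) = a') ?_
      refine D.all (Q := fun (w : ((((Fin 3 ⊕ Unit) ⊕ Unit) ⊕ Unit) ⊕ Unit) ⊕ Unit → ℂ[X]) b =>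
        Cst (w (Sum.inl (Sum.inr ()))) → Cst (w (Sum.inr ())) → Cst b →
        Ev (w (Sum.inl (Sum.inl (Sum.inl (Sum.inl (Sum.inl 0))))))
          (w (Sum.inl (Sum.inl (Sum.inl (Sum.inl (Sum.inl 1))))))
          (w (Sum.inl (Sum.inr ()))) (w (Sum.inl (Sum.inl (Sum.inl (Sum.inl (Sum.inr ())))))) →
        Ev (w (Sum.inl (Sum.inl (Sum.inl (Sum.inl (Sum.inl 0))))))
          (w (Sum.inl (Sum.inl (Sum.inl (Sum.inl (Sum.inl 1)))))) (w (Sum.inr ()))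
          (w (Sum.inl (Sum.inl (Sum.inl (Sum.inl (Sum.inr ())))))) →
        Ev (w (Sum.inl (Sum.inl (Sum.inl (Sum.inl (Sum.inl 0)))))) (w (Sum.inl (Sum.inl (Sum.inr ()))))
          (w (Sum.inl (Sum.inr ()))) b →
        Ev (w (Sum.inl (Sum.inl (Sum.inl (Sum.inl (Sum.inl 0)))))) (w (Sum.inl (Sum.inl (Sum.inr ()))))
          (w (Sum.inr ())) b →
          w (Sum.inl (Sum.inr ())) = w (Sum.inr ())) ?_
      refine D.imp (D.cst (DT.var _)) (D.imp (D.cst (DT.var _)) (D.imp (D.cst (DT.var _))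
        (D.imp (D.ev (DT.var _) (DT.var _) (DT.var _) (DT.var _))
        (D.imp (D.ev (DT.var _) (DT.var _) (DT.var _) (DT.var _))
        (D.imp (D.ev (DT.var _) (DT.var _) (DT.var _) (DT.var _))
        (D.imp (D.ev (DT.var _) (DT.var _) (DT.var _) (DT.var _)) (D.eq (DT.var _) (DT.var _))))))))
  have h2 := h.sub ![s, f, g] (fun i => by
    fin_cases i
    · exact hs
    · exact hf
    · exact hg)
  exact h2

end

lemma D.rel : D (fun v : Fin 2 → ℂ[X] => Rel (v 0) (v 1)) := by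
  unfold Rel
  refine D.or (D.and (D.eq (DT.var _) DT.zero) (D.eq (DT.var _) DT.zero)) (D.or ?_ ?_)
  · exact D.and (D.not (D.eq (DT.var _) DT.zero)) (D.and (D.not (D.eq (DT.var _) DT.zero))
      (D.and (D.cst (DT.var _)) (D.cst (DT.var _))))
  · refine D.and (D.not (D.cst (DT.var _))) (D.and (D.not (D.cst (DT.var _))) ?_)
    refine D.ex (Q := fun (w : Fin 2 → ℂ[X]) s => Lin s ∧ LE s (w 0) (w 1) ∧ LE s (w 1) (w 0)) ?_
    exact D.and (D.lin (DT.var _)) (D.and (D.le (DT.var _) (DT.var _) (DT.var _))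
      (D.le (DT.var _) (DT.var _) (DT.var _)))

/-- the relation equal degree is definable without parameters -/
theorem definable : (∅ : Set ℂ[X]).Definable Language.ring
    {v : Fin 2 → ℂ[X] | (v 0).degree = (v 1).degree} := by
  obtain ⟨φ, hφ⟩ := D.rel
  rw [Set.empty_definable_iff]
  refine ⟨φ, ?_⟩
  ext v
  rw [Set.mem_ofPred_eq, ← rel_iff]
  exact (hφ v).symm

end

end Pool.Agent.Q30.Deg
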